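import Pool.Agent.Helper51.REC.Goals3
import Pool.Agent.Helper42.RD.VAL

/-!
# Project REC (MP_fc6b1e_nt): packet T_ONE

The constant in the two-sided law is `1`.
-/

set_option autoImplicit false

namespace Pool.Agent.Helper50.REC

open NumberField Module IsDedekindDomain Pool.Agent.Helper51.RP Pool.Agent.Helper42.PP
open Pool.Agent.Helper51.REC
open Pool.Agent.Helper42.RD (val_eq_one_of_sub locPow_of_sub ordv_mul ordv_pow ordv_eq_zero_iff
  exists_int_close val_of_notMem val_div_of_sub_mem val_mul_sub)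

section ideals

variable {F : Type} [Field F] [NumberField F]

/-- The Chinese remainder theorem for two ideals. -/
theorem crt_two {I J : Ideal (𝓞 F)} (h : IsCoprime I J) (a b : 𝓞 F) :
    ∃ z : 𝓞 F, z - a ∈ I ∧ z - b ∈ J := by
  obtain ⟨i, hi, j, hj, hij⟩ := Ideal.isCoprime_iff_exists.1 h
  refine ⟨a * j + b * i, ?_, ?_⟩
  · have e : a * j + b * i - a = (b - a) * i := by
      have : j = 1 - i := by rw [← hij]; ring
      rw [this]; ring
    rw [e]; exact I.mul_mem_left _ hi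
  · have e : a * j + b * i - b = (a - b) * j := by
      have : i = 1 - j := by rw [← hij]; ring
      rw [this]; ring
    rw [e]; exact J.mul_mem_left _ hj

theorem exists_max (N : ℕ) (hN0 : N ≠ 0) : ∃ v : HeightOneSpectrum (𝓞 F),
    ((N + 1 : ℕ) : 𝓞 F) ∈ v.asIdeal := by
  have h1 : Ideal.span {((N + 1 : ℕ) : 𝓞 F)} ≠ ⊤ := by
    intro h
    have h2 := Ideal.absNorm_span_natCast (S := 𝓞 F) (N + 1)
    rw [h, Ideal.absNorm_top] at h2
    have h3 : finrank ℤ (𝓞 F) ≠ 0 := by rw [RingOfIntegers.rank]; exact finrank_pos.ne'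
    have h4 : 1 < (N + 1) ^ finrank ℤ (𝓞 F) := Nat.one_lt_pow h3 (by omega)
    rw [← h2] at h4
    exact lt_irrefl _ h4
  obtain ⟨m, hm, hle⟩ := Ideal.exists_le_maximal _ h1
  have hmem : ((N + 1 : ℕ) : 𝓞 F) ∈ m := hle (Ideal.mem_span_singleton_self _)
  have hne : m ≠ ⊥ := by
    intro h0
    rw [h0, Ideal.mem_bot, Nat.cast_eq_zero] at hmem
    omega
  exact ⟨⟨m, hm.isPrime, hne⟩, hmem⟩

/-- There is a prime outside a finite set. -/
theorem exists_notMem_prime (S : Set (HeightOneSpectrum (𝓞 F))) (hS : S.Finite) :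
    ∃ v, v ∉ S := by
  classical
  obtain ⟨N, hN⟩ : ∃ N : ℕ, N = ∏ v ∈ hS.toFinset, Ideal.absNorm v.asIdeal := ⟨_, rfl⟩
  have hN0 : N ≠ 0 := by
    rw [hN]
    exact Finset.prod_ne_zero_iff.2 fun v _ => by
      rw [Ne, Ideal.absNorm_eq_zero_iff]; exact v.ne_bot
  obtain ⟨m, hmem⟩ := exists_max (F := F) N hN0
  refine ⟨m, fun hv => ?_⟩
  have h5 : Ideal.absNorm m.asIdeal ∣ N := by
    rw [hN]
    exact Finset.dvd_prod_of_mem (fun v : HeightOneSpectrum (𝓞 F) => Ideal.absNorm v.asIdeal)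
      (hS.mem_toFinset.2 hv)
  obtain ⟨c, hc⟩ := h5
  have h6 : ((N : ℕ) : 𝓞 F) ∈ m.asIdeal := by
    rw [hc, Nat.cast_mul]
    exact Ideal.mul_mem_right _ _ (Ideal.absNorm_mem _)
  have h7 : (1 : 𝓞 F) ∈ m.asIdeal := by
    have := Ideal.sub_mem _ hmem h6
    rwa [Nat.cast_add, Nat.cast_one, add_sub_cancel_left] at this
  exact m.isPrime.ne_top ((Ideal.eq_top_iff_one _).2 h7)

/-- The primes which divide a nonzero integer are finite in number. -/
theorem fin_div {x : 𝓞 F} (hx : x ≠ 0) : {W : HeightOneSpectrum (𝓞 F) | x ∈ W.asIdeal}.Finite := by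
  refine (Ideal.finite_factors (I := Ideal.span {x}) ?_).subset ?_
  · rw [Ne, Ideal.zero_eq_bot, Ideal.span_singleton_eq_bot]; exact hx
  · intro W hW
    exact (Ideal.dvd_span_singleton).2 hW

/-- The modulus `p³ ∏_{v ∈ T} v`. -/
noncomputable def md (p : ℕ) (T : Finset (HeightOneSpectrum (𝓞 F))) : Ideal (𝓞 F) :=
  Ideal.span {(p : 𝓞 F) ^ 3} * ∏ v ∈ T, v.asIdeal

theorem md_mem {p : ℕ} {T : Finset (HeightOneSpectrum (𝓞 F))} {w : HeightOneSpectrum (𝓞 F)}
    (hw : w ∈ T) {z : 𝓞 F} (hz : z ∈ md p T) : z ∈ w.asIdeal := by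
  have h1 : md p T ≤ w.asIdeal := by
    refine (Ideal.mul_le_right).trans ?_
    exact Ideal.le_of_dvd (Finset.dvd_prod_of_mem _ hw)
  exact h1 hz

theorem md_val {p : ℕ} {T : Finset (HeightOneSpectrum (𝓞 F))} (w : HeightOneSpectrum (𝓞 F))
    {z : 𝓞 F} (hz : z ∈ md p T) :
    w.valuation F (z : F) ≤ w.valuation F (p : F) ^ 3 := by
  have h1 : z ∈ Ideal.span {(p : 𝓞 F) ^ 3} := Ideal.mul_le_left hz
  obtain ⟨c, rfl⟩ := Ideal.mem_span_singleton.1 h1
  have e : (((p : 𝓞 F) ^ 3 * c : 𝓞 F) : F) = (p : F) ^ 3 * (c : F) := by push_cast; rfl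
  rw [e, map_mul, map_pow]
  exact mul_le_of_le_one_right' (w.valuation_le_one c)

theorem md_coprime {p : ℕ} {T : Finset (HeightOneSpectrum (𝓞 F))} {w : HeightOneSpectrum (𝓞 F)}
    (hw : w ∉ T) (hp : (p : 𝓞 F) ∉ w.asIdeal) : IsCoprime (md p T) w.asIdeal := by
  have hm := w.isMaximal
  refine IsCoprime.mul_left ?_ (IsCoprime.prod_left fun v hv => ?_)
  · have h3 : (p : 𝓞 F) ^ 3 ∉ w.asIdeal := fun h => hp (w.isPrime.mem_of_pow_mem 3 h)
    obtain ⟨y, i, hi, hy⟩ := hm.exists_inv h3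
    exact Ideal.isCoprime_iff_exists.2 ⟨y * (p : 𝓞 F) ^ 3,
      Ideal.mul_mem_left _ _ (Ideal.mem_span_singleton_self _), i, hi, hy⟩
  · have hv' := v.isMaximal
    refine Ideal.isCoprime_of_isMaximal ?_
    intro h
    exact hw (HeightOneSpectrum.ext h ▸ hv)

end ideals

section units

variable {F : Type} [Field F] [NumberField F]

/-- A nonzero integer as a unit of the field. -/
noncomputable def un (a : 𝓞 F) (h : a ≠ 0) : Fˣ :=
  Units.mk0 (a : F) (by rwa [Ne, RingOfIntegers.coe_eq_zero_iff])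

theorem un_val (a : 𝓞 F) (h : a ≠ 0) : ((un a h : Fˣ) : F) = (a : F) := rfl

theorem ord_un {W : HeightOneSpectrum (𝓞 F)} {a : 𝓞 F} (h : a ≠ 0) (ha : a ∉ W.asIdeal) :
    ordv W ((un a h : Fˣ) : F) = 0 :=
  (ordv_eq_zero_iff W (un a h).ne_zero).2 (val_of_notMem W ha)

theorem val_p {p : ℕ} {S : Set (HeightOneSpectrum (𝓞 F))}
    (habp : ∀ W : HeightOneSpectrum (𝓞 F), W.valuation F (p : F) < 1 → W ∈ S)
    {W : HeightOneSpectrum (𝓞 F)} (hW : W ∉ S) : W.valuation F (p : F) = 1 := by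
  have h1 : W.valuation F (((p : 𝓞 F)) : F) ≤ 1 := W.valuation_le_one _
  have e : (((p : 𝓞 F)) : F) = (p : F) := by push_cast; rfl
  rw [e] at h1
  exact le_antisymm h1 (not_lt.1 fun h => hW (habp W h))

theorem notMem_p {p : ℕ} {S : Set (HeightOneSpectrum (𝓞 F))}
    (habp : ∀ W : HeightOneSpectrum (𝓞 F), W.valuation F (p : F) < 1 → W ∈ S)
    {W : HeightOneSpectrum (𝓞 F)} (hW : W ∉ S) : (p : 𝓞 F) ∉ W.asIdeal := by
  intro h
  have h1 : W.valuation F (((p : 𝓞 F)) : F) < 1 :=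
    (W.valuation_lt_one_iff_mem (K := F) (p : 𝓞 F)).2 h
  have e : (((p : 𝓞 F)) : F) = (p : F) := by push_cast; rfl
  rw [e] at h1
  exact hW (habp W h1)

/-- The symbols of two congruent units agree. -/
theorem kap_congr (h1 : K_BAS) (p : ℕ) [Fact p.Prime] (ε : F) (hε : IsPrimitiveRoot ε p)
    (W : HeightOneSpectrum (𝓞 F)) (hW : W.valuation F (p : F) = 1) (a b : Fˣ)
    (hb : W.valuation F (b : F) = 1) (hab : W.valuation F ((a : F) / (b : F) - 1) < 1) :
    kap p ε W a = kap p ε W b := by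
  obtain ⟨-, -, -, k4, -, k6, -⟩ := h1 p F ε hε W hW
  have hob : ordv W (b : F) = 0 := (ordv_eq_zero_iff W b.ne_zero).2 hb
  have hoc : ordv W ((a / b : Fˣ) : F) = 0 := by
    refine (ordv_eq_zero_iff W (a / b).ne_zero).2 ?_
    rw [Units.val_div_eq_div_val]
    exact val_eq_one_of_sub W hab
  have e : a = b * (a / b) := (mul_div_cancel b a).symm
  have hc : kap p ε W (a / b) = 0 := by
    refine (k6 _ (by rw [hoc]; exact dvd_zero _)).2 (locPow_of_sub W ?_)
    rw [Units.val_div_eq_div_val]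
    exact hab
  rw [e, k4 b (a / b) (by rw [hob]; exact dvd_zero _) (by rw [hoc]; exact dvd_zero _), hc, add_zero]

theorem kap_congr_int (h1 : K_BAS) (p : ℕ) [Fact p.Prime] (ε : F) (hε : IsPrimitiveRoot ε p)
    (W : HeightOneSpectrum (𝓞 F)) (hW : W.valuation F (p : F) = 1) {a b : 𝓞 F} (ha : a ≠ 0)
    (hb : b ≠ 0) (hbW : b ∉ W.asIdeal) (hab : a - b ∈ W.asIdeal) :
    kap p ε W (un a ha) = kap p ε W (un b hb) :=
  kap_congr h1 p ε hε W hW _ _ (val_of_notMem W hbW) (val_div_of_sub_mem W hbW hab)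

theorem kap_neg (h1 : K_BAS) (p : ℕ) [Fact p.Prime] (hp : Odd p) (ε : F)
    (hε : IsPrimitiveRoot ε p) (W : HeightOneSpectrum (𝓞 F)) (hW : W.valuation F (p : F) = 1)
    {b : 𝓞 F} (hb : b ≠ 0) (hbW : b ∉ W.asIdeal) :
    kap p ε W (un (-b) (neg_ne_zero.2 hb)) = kap p ε W (un b hb) := by
  obtain ⟨-, -, -, k4, k5, -, -⟩ := h1 p F ε hε W hW
  have e : un (-b) (neg_ne_zero.2 hb) = un b hb * (-1 : Fˣ) ^ p := by
    apply Units.ext
    rw [hp.neg_one_pow, un_val, Units.val_mul, un_val, Units.val_neg, Units.val_one]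
    push_cast; ring
  have ho : ordv W (((-1 : Fˣ) ^ p : Fˣ) : F) = 0 := by
    refine (ordv_eq_zero_iff W ((-1 : Fˣ) ^ p).ne_zero).2 ?_
    rw [hp.neg_one_pow, Units.val_neg, Units.val_one, Valuation.map_neg, map_one]
  rw [e, k4 _ _ (by rw [ord_un hb hbW]; exact dvd_zero _) (by rw [ho]; exact dvd_zero _), k5,
    add_zero]

theorem brk_congr (p : ℕ) (ε : F) (S : Set (HeightOneSpectrum (𝓞 F))) (x x' β : Fˣ)
    (h : ∀ W ∉ S, ordv W (β : F) ≠ 0 → kap p ε W x = kap p ε W x') :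
    brk p ε S x β = brk p ε S x' β := by
  unfold brk
  refine finsum_congr fun W => ?_
  by_cases hW : W ∈ S
  · rw [if_pos hW, if_pos hW]
  · rw [if_neg hW, if_neg hW]
    by_cases h0 : ordv W (β : F) = 0
    · rw [h0]; simp
    · rw [h W hW h0]

theorem brk_single (p : ℕ) (ε : F) (S : Set (HeightOneSpectrum (𝓞 F))) (x β : Fˣ)
    (v : HeightOneSpectrum (𝓞 F)) (hv : v ∉ S) (hv1 : ((ordv v (β : F) : ℤ) : ZMod p) = 1)
    (h : ∀ W ∉ S, W ≠ v → ordv W (β : F) ≠ 0 → kap p ε W x = 0) :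
    brk p ε S x β = kap p ε v x := by
  unfold brk
  rw [finsum_eq_single _ v]
  · rw [if_neg hv, hv1, one_mul]
  · intro W hWv
    by_cases hW : W ∈ S
    · rw [if_pos hW]
    · rw [if_neg hW]
      by_cases h0 : ordv W (β : F) = 0
      · rw [h0]; simp
      · rw [h W hW hWv h0, mul_zero]

end units

section main

/-- An integer which is congruent to `1` modulo `p³ ∏_{v ∈ T} v` satisfies the local conditions. -/
theorem locS_of {F : Type} [Field F] [NumberField F] {p : ℕ} {S : Set (HeightOneSpectrum (𝓞 F))}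
    {T : Finset (HeightOneSpectrum (𝓞 F))} (hST : ∀ w ∈ S, w ∈ T) {x : Fˣ} {z : 𝓞 F} {y : Fˣ}
    (hz : z - 1 ∈ md p T) (h : (x : F) * (y : F) ^ p = z) : LocS p S x := by
  refine ⟨y, fun w hw => ?_⟩
  have e : (x : F) * (y : F) ^ p - 1 = ((z - 1 : 𝓞 F) : F) := by rw [h]; push_cast; rfl
  rw [e]
  exact ⟨(w.valuation_lt_one_iff_mem (K := F) (z - 1)).2 (md_mem (hST w hw) hz), md_val w hz⟩

theorem two_case : ∀ c : ZMod 2, c * c = 1 → c = 1 := by decide

theorem t_one (h1 : K_BAS) (_h2 : K_APP) (_h3 : K_LOC) (_h4 : K_BRK) :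
    Pool.Agent.Helper51.REC.T_ONE := by
  intro p hp F _ _ ε S hS c₀ hc hyp
  classical
  have hε := hS.prim
  have habp := hS.abp
  rcases hp.out.eq_two_or_odd' with h2 | hodd
  · subst h2
    exact two_case c₀ hc
  -- the prime `v₀`
  obtain ⟨v, hv⟩ := exists_notMem_prime S hS.fin
  have hpv := notMem_p habp hv
  set T₀ : Finset (HeightOneSpectrum (𝓞 F)) := hS.fin.toFinset with hT₀
  have hT₀S : ∀ w ∈ S, w ∈ T₀ := fun w hw => hS.fin.mem_toFinset.2 hw
  have hvT₀ : v ∉ T₀ := fun h => hv (hS.fin.mem_toFinset.1 h)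
  have hco := md_coprime (p := p) hvT₀ hpv
  obtain ⟨π, hπ⟩ := v.intValuation_exists_uniformizer
  obtain ⟨x', hx'1, hx'2⟩ := crt_two (J := v.asIdeal ^ 2) (hco.pow_right) 1 π
  obtain ⟨μ, hμ1, hμ2⟩ := crt_two hco 0 1
  rw [sub_zero] at hμ1
  have hμv : μ ∉ v.asIdeal := by
    intro h
    have := v.asIdeal.sub_mem h hμ2
    rw [sub_sub_cancel] at this
    exact v.isPrime.ne_top ((Ideal.eq_top_iff_one _).2 this)
  have hμ0 : μ ≠ 0 := by rintro rfl; exact hμv (zero_mem _)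
  have hx'val : v.valuation F (x' : F) = WithZero.exp (-1 : ℤ) := by
    have e1 : v.valuation F (π : F) = WithZero.exp (-1 : ℤ) := by
      rw [← hπ]; exact v.valuation_of_algebraMap π
    have e2 : v.valuation F (((x' - π : 𝓞 F)) : F) ≤ WithZero.exp (-(2 : ℕ) : ℤ) := by
      have := (v.intValuation_le_pow_iff_mem (x' - π) 2).2 hx'2
      rwa [← v.valuation_of_algebraMap (K := F)] at this
    rw [← e1]
    refine Valuation.map_eq_of_sub_lt _ ?_
    have e3 : (x' : F) - (π : F) = ((x' - π : 𝓞 F) : F) := by push_cast; rfl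
    rw [e3, e1]
    refine lt_of_le_of_lt e2 ?_
    rw [WithZero.exp_lt_exp]
    norm_num
  have hx'0 : x' ≠ 0 := by
    intro h0
    have h00 : (x' : F) = 0 := by rw [h0]; exact map_zero (algebraMap (𝓞 F) F)
    rw [h00, map_zero] at hx'val
    exact WithZero.exp_ne_zero hx'val.symm
  have hx'ord : ordv v (x' : F) = 1 := by
    unfold ordv
    rw [hx'val, WithZero.log_exp]; norm_num
  obtain ⟨x, hx⟩ : ∃ x : 𝓞 F, x = μ ^ p * x' := ⟨_, rfl⟩
  have hx0 : x ≠ 0 := by rw [hx]; exact mul_ne_zero (pow_ne_zero _ hμ0) hx'0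
  have hxv : x ∈ v.asIdeal := by
    have h5 : x' ∈ v.asIdeal := by
      refine (v.valuation_lt_one_iff_mem (K := F) x').1 ?_
      have : v.valuation F (algebraMap (𝓞 F) F x') = WithZero.exp (-1 : ℤ) := hx'val
      rw [this, ← WithZero.exp_zero, WithZero.exp_lt_exp]
      norm_num
    rw [hx]; exact Ideal.mul_mem_left _ _ h5
  have hxord : ordv v ((un x hx0 : Fˣ) : F) = 1 := by
    have e : ((un x hx0 : Fˣ) : F) = (μ : F) ^ p * (x' : F) := by
      rw [un_val, hx]; push_cast; rfl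
    have hμ0' : (μ : F) ≠ 0 := by rwa [Ne, RingOfIntegers.coe_eq_zero_iff]
    have hx0' : (x' : F) ≠ 0 := by rwa [Ne, RingOfIntegers.coe_eq_zero_iff]
    have hμo : ordv v (μ : F) = 0 := (ordv_eq_zero_iff v hμ0').2 (val_of_notMem v hμv)
    rw [e, ordv_mul v (pow_ne_zero _ hμ0') hx0', ordv_pow, hμo, hx'ord]
    simp
  have hxm : x ∈ md p T₀ := by
    rw [hx]
    exact Ideal.mul_mem_right _ _ (Ideal.pow_mem_of_mem _ hμ1 p hp.out.pos)
  -- the element `s`
  have hfin : (S ∪ {W : HeightOneSpectrum (𝓞 F) | x ∈ W.asIdeal}).Finite :=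
    hS.fin.union (fin_div hx0)
  set T : Finset (HeightOneSpectrum (𝓞 F)) := hfin.toFinset.erase v with hT
  have hTS : ∀ w ∈ S, w ∈ T := fun w hw => Finset.mem_erase.2
    ⟨fun h => hv (h ▸ hw), hfin.mem_toFinset.2 (Or.inl hw)⟩
  have hTx : ∀ w : HeightOneSpectrum (𝓞 F), x ∈ w.asIdeal → w ≠ v → w ∈ T := fun w hw h =>
    Finset.mem_erase.2 ⟨h, hfin.mem_toFinset.2 (Or.inr hw)⟩
  have hvT : v ∉ T := Finset.notMem_erase _ _
  have hvp := val_p habp hv
  obtain ⟨g, hg1, hg2⟩ := (h1 p F ε hε v hvp).2.2.2.2.2.2 1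
  obtain ⟨c, hc1, hc2⟩ := exists_int_close v hg1
  obtain ⟨s, hs1, hs2⟩ := crt_two (md_coprime (p := p) hvT hpv) 1 c
  have hsv : s ∉ v.asIdeal := by
    intro h
    have := v.asIdeal.sub_mem h hs2
    rw [sub_sub_cancel] at this
    exact hc1 this
  have hs0 : s ≠ 0 := by rintro rfl; exact hsv (zero_mem _)
  have hc0 : c ≠ 0 := by rintro rfl; exact hc1 (zero_mem _)
  have hks : kap p ε v (un s hs0) = 1 := by
    rw [kap_congr_int h1 p ε hε v hvp hs0 hc0 hc1 hs2, ← hg2]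
    exact kap_congr h1 p ε hε v hvp _ _ hg1 hc2
  -- the element `y`
  obtain ⟨y, hy⟩ : ∃ y : 𝓞 F, y = x + s := ⟨_, rfl⟩
  have hyv : y ∉ v.asIdeal := by
    intro h
    have := v.asIdeal.sub_mem h hxv
    rw [hy, add_sub_cancel_left] at this
    exact hsv this
  have hy0 : y ≠ 0 := by rintro rfl; exact hyv (zero_mem _)
  -- coprimality
  have cxs : ∀ W ∉ S, x ∈ W.asIdeal → s ∉ W.asIdeal := by
    intro W _ hWx hWs
    by_cases hWv : W = v
    · subst hWv; exact hsv hWs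
    · have h5 := md_mem (hTx W hWx hWv) hs1
      have := W.asIdeal.sub_mem hWs h5
      rw [sub_sub_cancel] at this
      exact W.isPrime.ne_top ((Ideal.eq_top_iff_one _).2 this)
  have cxy : ∀ W ∉ S, x ∈ W.asIdeal → y ∉ W.asIdeal := by
    intro W hW hWx hWy
    have := W.asIdeal.sub_mem hWy hWx
    rw [hy, add_sub_cancel_left] at this
    exact cxs W hW hWx this
  have csy : ∀ W ∉ S, s ∈ W.asIdeal → y ∉ W.asIdeal := by
    intro W hW hWs hWy
    have := W.asIdeal.sub_mem hWy hWs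
    rw [hy, add_sub_cancel_right] at this
    exact cxs W hW this hWs
  have sep : ∀ (a b : 𝓞 F) (ha : a ≠ 0) (hb : b ≠ 0),
      (∀ W ∉ S, a ∈ W.asIdeal → b ∉ W.asIdeal) → Sep p S (un a ha) (un b hb) := by
    intro a b ha hb hab W hW
    by_cases h : a ∈ W.asIdeal
    · right; rw [ord_un hb (hab W hW h)]; exact dvd_zero _
    · left; rw [ord_un ha h]; exact dvd_zero _
  -- local conditions
  have hμu : ((un μ hμ0 : Fˣ) : F) = (μ : F) := rfl
  have Lx : LocS p S (un x hx0) := by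
    refine locS_of (y := (un μ hμ0)⁻¹) hT₀S hx'1 ?_
    have hμ0' : (μ : F) ≠ 0 := by rwa [Ne, RingOfIntegers.coe_eq_zero_iff]
    rw [un_val, hx, Units.val_inv_eq_inv_val, hμu, inv_pow]
    push_cast
    field_simp
  have Ls : LocS p S (un s hs0) := by
    refine locS_of (y := 1) hTS hs1 ?_
    rw [un_val, Units.val_one, one_pow, mul_one]
  have Ly : LocS p S (un y hy0) := by
    refine locS_of (y := 1) (T := T₀) (z := y) hT₀S ?_ ?_
    · have h5 : s - 1 ∈ md p T₀ := by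
        refine ?_
        have h6 : md p T ≤ md p T₀ := by
          unfold md
          refine Ideal.mul_mono_right ?_
          refine Ideal.le_of_dvd (Finset.prod_dvd_prod_of_subset _ _ _ fun w hw => ?_)
          exact hTS w (hS.fin.mem_toFinset.1 hw)
        exact h6 hs1
      have e : y - 1 = x + (s - 1) := by rw [hy]; ring
      rw [e]; exact Ideal.add_mem _ hxm h5
    · rw [un_val, Units.val_one, one_pow, mul_one]
  -- the congruences
  have ordne : ∀ (W : HeightOneSpectrum (𝓞 F)) (a : 𝓞 F) (ha : a ≠ 0),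
      ordv W ((un a ha : Fˣ) : F) ≠ 0 → a ∈ W.asIdeal := by
    intro W a ha h
    by_contra h'
    exact h (ord_un ha h')
  have e1 : brk p ε S (un x hx0) (un y hy0) = brk p ε S (un s hs0) (un y hy0) := by
    refine brk_congr p ε S _ _ _ fun W hW h => ?_
    have hWy := ordne W y hy0 h
    have hWs : s ∉ W.asIdeal := fun h' => csy W hW h' hWy
    rw [← kap_neg h1 p hodd ε hε W (val_p habp hW) hs0 hWs]
    refine kap_congr_int h1 p ε hε W (val_p habp hW) hx0 (neg_ne_zero.2 hs0) ?_ ?_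
    · intro h'; exact hWs (by simpa using h')
    · rw [sub_neg_eq_add, ← hy]; exact hWy
  have e2 : brk p ε S (un y hy0) (un s hs0) = brk p ε S (un x hx0) (un s hs0) := by
    refine brk_congr p ε S _ _ _ fun W hW h => ?_
    have hWs := ordne W s hs0 h
    have hWx : x ∉ W.asIdeal := fun h' => cxs W hW h' hWs
    refine kap_congr_int h1 p ε hε W (val_p habp hW) hy0 hx0 hWx ?_
    rw [hy, add_sub_cancel_left]; exact hWs
  have e3 : brk p ε S (un y hy0) (un x hx0) = brk p ε S (un s hs0) (un x hx0) := by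
    refine brk_congr p ε S _ _ _ fun W hW h => ?_
    have hWx := ordne W x hx0 h
    have hWs : s ∉ W.asIdeal := cxs W hW hWx
    refine kap_congr_int h1 p ε hε W (val_p habp hW) hy0 hs0 hWs ?_
    rw [hy, add_sub_cancel_right]; exact hWx
  have e4 : brk p ε S (un s hs0) (un x hx0) = 1 := by
    rw [brk_single p ε S _ _ v hv (by rw [hxord]; simp) ?_, hks]
    intro W hW hWv h
    have hWx := ordne W x hx0 h
    have h5 := md_mem (hTx W hWx hWv) hs1
    have hkk := kap_congr_int h1 p ε hε W (val_p habp hW) hs0 (one_ne_zero)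
      (fun h' => W.isPrime.ne_top ((Ideal.eq_top_iff_one _).2 h')) h5
    rw [hkk]
    have e : un (1 : 𝓞 F) one_ne_zero = (1 : Fˣ) ^ p := by
      apply Units.ext; rw [un_val]; simp
    rw [e]
    exact (h1 p F ε hε W (val_p habp hW)).2.2.2.2.1 1
  have f1 := hyp (un x hx0) (un y hy0) Ly (sep _ _ _ _ cxy)
  have f2 := hyp (un s hs0) (un y hy0) Ly (sep _ _ _ _ csy)
  have f3 := hyp (un x hx0) (un s hs0) Ls (sep _ _ _ _ cxs)
  rw [e3, e4, mul_one] at f1
  rw [← e1, f1, e2, f3, e4, mul_one, hc] at f2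
  exact f2

end main

end Pool.Agent.Helper50.REC
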